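import Mathlib

open Polynomial

namespace X164.LN2

/-- power sums of `1 / (x - r)` -/
noncomputable def u (k : ℕ) (s : Multiset ℝ) (x : ℝ) : ℝ := (s.map (fun r => (1 / (x - r)) ^ k)).sum

/-- the monic polynomial with root multiset `s` -/
noncomputable def pr (s : Multiset ℝ) : ℝ[X] := (s.map (fun r => X - C r)).prod

lemma u_cons (k : ℕ) (r : ℝ) (s : Multiset ℝ) (x : ℝ) :
    u k (r ::ₘ s) x = (1 / (x - r)) ^ k + u k s x := by simp [u]

lemma pr_cons (r : ℝ) (s : Multiset ℝ) : pr (r ::ₘ s) = (X - C r) * pr s := by simp [pr]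

lemma derivs (s : Multiset ℝ) (x : ℝ) (h : ∀ r ∈ s, x ≠ r) :
    (derivative (pr s)).eval x = (pr s).eval x * u 1 s x ∧
    (derivative (derivative (pr s))).eval x = (pr s).eval x * (u 1 s x ^ 2 - u 2 s x) ∧
    (derivative (derivative (derivative (pr s)))).eval x
      = (pr s).eval x * (u 1 s x ^ 3 - 3 * u 1 s x * u 2 s x + 2 * u 3 s x) := by
  induction s using Multiset.induction_on with
  | empty => simp [pr, u]
  | cons r s ih =>
    obtain ⟨h1, h2, h3⟩ := ih (fun a ha => h a (Multiset.mem_cons_of_mem ha))
    have hr : x - r ≠ 0 := sub_ne_zero.mpr (h r (Multiset.mem_cons_self _ _))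
    have e : (x - r) * (1 / (x - r)) = 1 := by field_simp
    simp only [pr_cons, u_cons, derivative_mul, derivative_sub, derivative_X, derivative_C,
      sub_zero, one_mul, derivative_add, eval_add, eval_mul, eval_sub, eval_X, eval_C, h1, h2, h3,
      derivative_one, zero_mul, zero_add, add_zero]
    generalize 1 / (x - r) = a at e ⊢
    refine ⟨?_, ?_, ?_⟩
    · linear_combination (-(eval x (pr s))) * e
    · linear_combination (-2 * (eval x (pr s)) * u 1 s x) * e
    · linear_combination (-3 * (eval x (pr s)) * (u 1 s x ^ 2 - u 2 s x)) * e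

lemma pr_pos (s : Multiset ℝ) (x : ℝ) (h : ∀ r ∈ s, r < x) : 0 < (pr s).eval x := by
  induction s using Multiset.induction_on with
  | empty => simp [pr]
  | cons r s ih =>
    have h1 := ih (fun a ha => h a (Multiset.mem_cons_of_mem ha))
    have h2 := h r (Multiset.mem_cons_self _ _)
    rw [pr_cons, eval_mul, eval_sub, eval_X, eval_C]
    exact mul_pos (by linarith) h1

lemma u_nonneg (k : ℕ) (s : Multiset ℝ) (x : ℝ) (h : ∀ r ∈ s, r < x) : 0 ≤ u k s x := by
  induction s using Multiset.induction_on with
  | empty => simp [u]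
  | cons r s ih =>
    have h1 := ih (fun a ha => h a (Multiset.mem_cons_of_mem ha))
    have h2 := h r (Multiset.mem_cons_self _ _)
    rw [u_cons]
    have : 0 < x - r := by linarith
    positivity

lemma u_anti (s : Multiset ℝ) (x y : ℝ) (hxy : x ≤ y) (h : ∀ r ∈ s, r < x) :
    (y - x) * u 2 s y ≤ u 1 s x - u 1 s y := by
  induction s using Multiset.induction_on with
  | empty => simp [u]
  | cons r s ih =>
    have h1 := ih (fun a ha => h a (Multiset.mem_cons_of_mem ha))
    have h2 := h r (Multiset.mem_cons_self _ _)
    rw [u_cons, u_cons, u_cons]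
    have hx : 0 < x - r := by linarith
    have hy : 0 < y - r := by linarith
    have h3 : (y - x) * (1 / (y - r)) ^ 2 ≤ (1 / (x - r)) ^ 1 - (1 / (y - r)) ^ 1 := by
      have e : (1 / (x - r)) ^ 1 - (1 / (y - r)) ^ 1 - (y - x) * (1 / (y - r)) ^ 2
          = (y - x) ^ 2 / ((x - r) * (y - r) ^ 2) := by
        field_simp
        ring
      have : 0 ≤ (y - x) ^ 2 / ((x - r) * (y - r) ^ 2) := by positivity
      linarith
    linarith

lemma u_lower (s : Multiset ℝ) (x : ℝ) (h : ∀ r ∈ s, 0 ≤ r ∧ r < x) :
    (Multiset.card s : ℝ) * (1 / x) ≤ u 1 s x := by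
  induction s using Multiset.induction_on with
  | empty => simp [u]
  | cons r s ih =>
    have h1 := ih (fun a ha => h a (Multiset.mem_cons_of_mem ha))
    obtain ⟨h0, h2⟩ := h r (Multiset.mem_cons_self _ _)
    rw [u_cons, Multiset.card_cons]
    push_cast
    have hx : 0 < x - r := by linarith
    have h3 : 1 / x ≤ (1 / (x - r)) ^ 1 := by
      rw [pow_one]
      exact one_div_le_one_div_of_le hx (by linarith)
    linarith

lemma msum_pos (s : Multiset ℂ) (f : ℂ → ℝ) (h : ∀ r ∈ s, 0 < f r) (hs : s ≠ 0) :
    0 < (s.map f).sum := by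
  obtain ⟨a, ha⟩ := Multiset.exists_mem_of_ne_zero hs
  obtain ⟨t, rfl⟩ := Multiset.exists_cons_of_mem ha
  rw [Multiset.map_cons, Multiset.sum_cons]
  have h1 : 0 ≤ (t.map f).sum := by
    apply Multiset.sum_nonneg
    intro x hx
    obtain ⟨r, hr, rfl⟩ := Multiset.mem_map.mp hx
    exact (h r (Multiset.mem_cons_of_mem hr)).le
  have h2 := h _ (Multiset.mem_cons_self _ t)
  linarith

lemma msum_im (s : Multiset ℂ) (f : ℂ → ℂ) :
    (s.map f).sum.im = (s.map (fun r => (f r).im)).sum := by
  induction s using Multiset.induction_on with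
  | empty => simp
  | cons a s ih => simp [ih]

lemma msum_re (s : Multiset ℂ) (f : ℂ → ℂ) :
    (s.map f).sum.re = (s.map (fun r => (f r).re)).sum := by
  induction s using Multiset.induction_on with
  | empty => simp
  | cons a s ih => simp [ih]

/-- `p` is nonzero and all its complex roots are real and nonnegative -/
def NR (p : ℝ[X]) : Prop := p ≠ 0 ∧ ∀ z : ℂ, aeval z p = 0 → z.im = 0 ∧ 0 ≤ z.re

lemma NR_step (p : ℝ[X]) (hp : NR p) (c : ℝ) (hc : 0 < c) : NR (derivative p - C c * p) := by
  obtain ⟨h0, hr⟩ := hp
  constructor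
  · intro h
    have h1 : derivative p = C c * p := sub_eq_zero.mp h
    have h2 := congrArg degree h1
    rw [degree_C_mul hc.ne'] at h2
    exact absurd h2 (degree_derivative_lt h0).ne
  · intro z hz
    by_cases hpz : aeval z p = 0
    · exact hr z hpz
    · set q : ℂ[X] := p.map (algebraMap ℝ ℂ) with hq
      have hq0 : q.eval z ≠ 0 := by
        rw [hq, eval_map_algebraMap]; exact hpz
      have hsp := IsAlgClosed.splits q
      have hder : q.derivative.eval z = c * q.eval z := by
        have : aeval z (derivative p) - (c : ℂ) * aeval z p = 0 := by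
          simpa using hz
        rw [hq, derivative_map, eval_map_algebraMap, eval_map_algebraMap]
        linear_combination this
      have hlog : (q.roots.map (fun r => 1 / (z - r))).sum = c := by
        have h1 := hsp.eval_derivative_div_eval_of_ne_zero hq0
        rw [← h1, hder]
        field_simp
      have hroot : ∀ r ∈ q.roots, r.im = 0 ∧ 0 ≤ r.re := by
        intro r hrr
        apply hr
        have := (mem_roots'.mp hrr).2
        rw [IsRoot, hq, eval_map_algebraMap] at this
        exact this
      have hne : ∀ r ∈ q.roots, z ≠ r := by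
        rintro r hrr rfl
        exact hq0 (mem_roots'.mp hrr).2
      have hrne : q.roots ≠ 0 := by
        intro h
        rw [h] at hlog
        simp only [Multiset.map_zero, Multiset.sum_zero] at hlog
        have : (c : ℂ) = 0 := hlog.symm
        have h3 : (c : ℂ).re = 0 := by rw [this]; simp
        rw [Complex.ofReal_re] at h3
        exact hc.ne' h3
      have hns : ∀ r ∈ q.roots, 0 < Complex.normSq (z - r) := by
        intro r hrr
        exact Complex.normSq_pos.mpr (sub_ne_zero.mpr (hne r hrr))
      have him := congrArg Complex.im hlog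
      have hre := congrArg Complex.re hlog
      rw [msum_im, Complex.ofReal_im] at him
      rw [msum_re, Complex.ofReal_re] at hre
      have hzim : z.im = 0 := by
        by_contra hzi
        have h4 : 0 < (q.roots.map (fun r => (-z.im) * (1 / (z - r)).im)).sum := by
          apply msum_pos _ _ _ hrne
          intro r hrr
          have h5 : (1 / (z - r)).im = - z.im / Complex.normSq (z - r) := by
            rw [one_div, Complex.inv_im, Complex.sub_im, (hroot r hrr).1, sub_zero]
          rw [h5]
          have h6 := hns r hrr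
          have h7 : 0 < z.im * z.im := mul_self_pos.mpr hzi
          have h8 : -z.im * (-z.im / Complex.normSq (z - r))
              = (z.im * z.im) / Complex.normSq (z - r) := by ring
          rw [h8]
          positivity
        rw [Multiset.sum_map_mul_left, him, mul_zero] at h4
        exact lt_irrefl _ h4
      refine ⟨hzim, ?_⟩
      by_contra hzr
      push Not at hzr
      have h4 : 0 < (q.roots.map (fun r => (-1 : ℝ) * (1 / (z - r)).re)).sum := by
        apply msum_pos _ _ _ hrne
        intro r hrr
        have h5 : (1 / (z - r)).re = (z.re - r.re) / Complex.normSq (z - r) := by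
          rw [one_div, Complex.inv_re, Complex.sub_re]
        rw [h5]
        have h6 := hns r hrr
        have h7 : 0 < r.re - z.re := by linarith [(hroot r hrr).2]
        have h8 : (-1 : ℝ) * ((z.re - r.re) / Complex.normSq (z - r))
            = (r.re - z.re) / Complex.normSq (z - r) := by ring
        rw [h8]
        positivity
      rw [Multiset.sum_map_mul_left, hre] at h4
      linarith

lemma NR_split (q : ℝ[X]) (hm : q.Monic) (hq : NR q) :
    ∃ s : Multiset ℝ, q = pr s ∧ ∀ r ∈ s, 0 ≤ r := by
  obtain ⟨h0, hr⟩ := hq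
  set Q : ℂ[X] := q.map (algebraMap ℝ ℂ) with hQ
  have hQm : Q.Monic := hm.map _
  have hroot : ∀ r ∈ Q.roots, r.im = 0 ∧ 0 ≤ r.re := by
    intro r hrr
    apply hr
    have := (mem_roots'.mp hrr).2
    rw [IsRoot, hQ, eval_map_algebraMap] at this
    exact this
  have hprod : Q = (Q.roots.map (fun a => X - C a)).prod := by
    have := (IsAlgClosed.splits Q).eq_prod_roots_of_monic hQm
    exact this
  refine ⟨Q.roots.map Complex.re, ?_, ?_⟩
  · apply Polynomial.map_injective (algebraMap ℝ ℂ) (algebraMap ℝ ℂ).injective
    rw [← hQ]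
    conv_lhs => rw [hprod]
    rw [pr, Polynomial.map_multiset_prod, Multiset.map_map, Multiset.map_map]
    congr 1
    apply Multiset.map_congr rfl
    intro r hrr
    have h1 := (hroot r hrr).1
    have h2 : ((r.re : ℝ) : ℂ) = r := by
      apply Complex.ext <;> simp [h1]
    simp [h2]
  · intro r hr2
    obtain ⟨z, hz, rfl⟩ := Multiset.mem_map.mp hr2
    exact (hroot z hz).2

lemma pr_monic (s : Multiset ℝ) : (pr s).Monic := by
  rw [pr]
  exact monic_multiset_prod_of_monic _ _ (fun r _ => monic_X_sub_C r)

lemma pr_natDegree (s : Multiset ℝ) : (pr s).natDegree = Multiset.card s := by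
  rw [pr, natDegree_multiset_prod_X_sub_C_eq_card]

lemma pr_NR (s : Multiset ℝ) (h : ∀ r ∈ s, 0 ≤ r) : NR (pr s) := by
  refine ⟨(pr_monic s).ne_zero, fun z hz => ?_⟩
  induction s using Multiset.induction_on with
  | empty => simp [pr] at hz
  | cons r s ih =>
    rw [pr_cons, map_mul] at hz
    rcases mul_eq_zero.mp hz with h1 | h1
    · have h2 : z = r := by
        have : z - (r : ℂ) = 0 := by simpa using h1
        exact sub_eq_zero.mp this
      rw [h2]
      simpa using h r (Multiset.mem_cons_self _ _)
    · exact ih (fun a ha => h a (Multiset.mem_cons_of_mem ha)) h1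

end X164.LN2
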