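import Pool.Agent.X164.LN2.Seq

open Polynomial

namespace X164.LN2

open X164.LN

lemma H_eq (j : ℕ) : H j = ((harmonic j : ℚ) : ℝ) := by
  rw [H, harmonic]
  push_cast
  exact Finset.sum_congr rfl (fun i _ => one_div _)

lemma main (n k : ℕ) (hn : 2 ≤ n) (hk : 1 ≤ k) :
    ∃ ρ : ℝ, IsGreatest {x : ℝ | aeval x (Lk n k) = 0} ρ ∧
      ρ ≤ ((n : ℝ) + k - 1) + H (n - 2) ∧
      ((n : ℝ) + k - 1) + H (n - 2) - 5 / ((n : ℝ) + k - 1) ≤ ρ := by
  obtain ⟨j, rfl⟩ := Nat.exists_eq_add_of_le' hn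
  obtain ⟨k, rfl⟩ := Nat.exists_eq_add_of_le' hk
  obtain ⟨ρ, s, h1, h2, h3, h4, h5, h6, h7⟩ := seq (j + k + 2) (by omega) j
  have hM : ((j + k + 2 : ℕ) : ℝ) = ((j + 2 : ℕ) : ℝ) + ((k + 1 : ℕ) : ℝ) - 1 := by
    push_cast; ring
  rw [hM] at h5 h6
  have e0 : j + 2 - 2 = j := by omega
  rw [e0]
  refine ⟨ρ, ?_, h5, ?_⟩
  · have hf := Lk_formula (j + 1) k
    have e1 : j + 1 + k + 1 = j + k + 2 := by omega
    rw [e1] at hf
    have hc : ((k : ℚ) + 1) / ((j + 1 + 1).factorial : ℚ) * (-1) ^ (j + 1 + k) ≠ 0 := by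
      have h1 : (0 : ℚ) < ((k : ℚ) + 1) / ((j + 1 + 1).factorial : ℚ) := by positivity
      exact mul_ne_zero h1.ne' (pow_ne_zero _ (by norm_num))
    have hiff : ∀ x : ℝ, aeval x (Lk (j + 2) (k + 1)) = 0 ↔ (pr (ρ ::ₘ s)).eval x = 0 := by
      intro x
      have e2 : Lk (j + 2) (k + 1) = Lk (j + 1 + 1) (k + 1) := rfl
      rw [e2, hf, map_mul, aeval_C, mul_eq_zero, or_iff_right (by
        intro h; exact hc ((map_eq_zero _).mp h)), ← eval_map_algebraMap, h1, eval_mul, eval_C,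
        mul_eq_zero, or_iff_right]
      intro h
      rcases mul_eq_zero.mp h with h | h
      · exact absurd h (pow_ne_zero _ (by norm_num))
      · exact absurd h (by positivity)
    constructor
    · rw [Set.mem_ofPred_eq, hiff, pr_cons]
      simp
    · intro x hx
      rw [Set.mem_ofPred_eq, hiff] at hx
      by_contra h
      push Not at h
      refine (pr_pos (ρ ::ₘ s) x ?_).ne' hx
      intro r hr
      rcases Multiset.mem_cons.mp hr with rfl | hr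
      · exact h
      · exact (h3 r hr).2.trans h
  · have hM0 : (0 : ℝ) < ((j + 2 : ℕ) : ℝ) + ((k + 1 : ℕ) : ℝ) - 1 := by
      rw [← hM]; positivity
    have h8 : E j / (((j + 2 : ℕ) : ℝ) + ((k + 1 : ℕ) : ℝ) - 1)
        ≤ 5 / (((j + 2 : ℕ) : ℝ) + ((k + 1 : ℕ) : ℝ) - 1) :=
      div_le_div_of_nonneg_right (E_le j) hM0.le
    linarith

lemma harm (n : ℕ) (hn : 2 ≤ n) :
    H (n - 2) ≤ Real.log n + Real.eulerMascheroniConstant ∧
    Real.log n + Real.eulerMascheroniConstant - 3 / n ≤ H (n - 2) := by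
  obtain ⟨j, rfl⟩ := Nat.exists_eq_add_of_le' hn
  have e0 : j + 2 - 2 = j := by omega
  rw [e0]
  have h1 : H (j + 2) = H j + 1 / ((j : ℝ) + 1) + 1 / ((j : ℝ) + 2) := by
    rw [H_succ, H_succ]
    push_cast
    ring
  have h2 := Real.eulerMascheroniSeq_lt_eulerMascheroniConstant (j + 2)
  have h3 := Real.eulerMascheroniConstant_lt_eulerMascheroniSeq' (j + 2)
  rw [Real.eulerMascheroniSeq, ← H_eq] at h2
  rw [Real.eulerMascheroniSeq', if_neg (by omega), ← H_eq] at h3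
  push_cast at h2 h3 ⊢
  have hj : (0 : ℝ) ≤ j := Nat.cast_nonneg j
  have h4 : Real.log ((j : ℝ) + 2 + 1) ≤ Real.log ((j : ℝ) + 2) + 1 / ((j : ℝ) + 2) := by
    have h5 := Real.log_le_sub_one_of_pos (show 0 < ((j : ℝ) + 2 + 1) / ((j : ℝ) + 2) by positivity)
    rw [Real.log_div (by positivity) (by positivity)] at h5
    have h6 : ((j : ℝ) + 2 + 1) / ((j : ℝ) + 2) - 1 = 1 / ((j : ℝ) + 2) := by
      field_simp
      ring
    linarith
  constructor
  · have : 0 < 1 / ((j : ℝ) + 1) := by positivity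
    linarith
  · have h7 : 3 / ((j : ℝ) + 2) - 1 / ((j : ℝ) + 1) - 1 / ((j : ℝ) + 2)
        = j / (((j : ℝ) + 1) * ((j : ℝ) + 2)) := by
      field_simp
      ring
    have h8 : 0 ≤ j / (((j : ℝ) + 1) * ((j : ℝ) + 2)) := by positivity
    linarith

end X164.LN2
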