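import Pool.Agent.X164.LN2.Step
import Pool.Agent.X164.LN.Fin

open Polynomial

namespace X164.LN2

open X164.LN

lemma opP_derivative (n : ℕ) (p : ℚ[X]) : opP n (derivative p) = derivative (opP n p) := by
  induction n generalizing p with
  | zero => simp [opP]
  | succ n ih => rw [opP_succ, opP_succ, ← ih, derivative_sub, derivative_C_mul]

lemma opP_succ' (n : ℕ) (p : ℚ[X]) :
    opP (n + 1) p = derivative (opP n p) - C ((n : ℚ) + 1) * opP n p := by
  rw [opP_succ, map_sub, opP_derivative, opP_C_mul]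

/-- harmonic numbers -/
noncomputable def H (j : ℕ) : ℝ := ∑ i ∈ Finset.range j, 1 / ((i : ℝ) + 1)

/-- the error sum -/
noncomputable def E (j : ℕ) : ℝ := ∑ i ∈ Finset.range j, (1 + H (i + 1)) / ((i : ℝ) + 1) ^ 2

lemma H_succ (j : ℕ) : H (j + 1) = H j + 1 / ((j : ℝ) + 1) := by
  rw [H, Finset.sum_range_succ, ← H]

lemma E_succ (j : ℕ) : E (j + 1) = E j + (1 + H (j + 1)) / ((j : ℝ) + 1) ^ 2 := by
  rw [E, Finset.sum_range_succ, ← E]

lemma H_nonneg (j : ℕ) : 0 ≤ H j := Finset.sum_nonneg (fun i _ => by positivity)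

lemma E_bound (j : ℕ) : E (j + 1) ≤ 5 - (H (j + 1) + 2) / ((j : ℝ) + 1) := by
  induction j with
  | zero => 
    rw [E_succ, H_succ]
    simp [E, H]
    norm_num
  | succ j ih =>
    rw [E_succ, H_succ (j + 1)]
    push_cast
    have h0 := H_nonneg (j + 1)
    generalize H (j + 1) = h at *
    generalize E (j + 1) = e at *
    have hm : (0 : ℝ) < (j : ℝ) + 1 := by positivity
    generalize (j : ℝ) + 1 = m at *
    have h1 : (h + 2) / m - (1 + (h + 1 / (m + 1))) / (m + 1) ^ 2 - (h + 1 / (m + 1) + 2) / (m + 1)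
        = (h * (m + 1) + m + 2) / (m * (m + 1) ^ 3) := by
      field_simp
      ring
    have h2 : 0 ≤ (h * (m + 1) + m + 2) / (m * (m + 1) ^ 3) := by positivity
    linarith

lemma E_le (j : ℕ) : E j ≤ 5 := by
  rcases j with _ | j
  · simp [E]
  · have h1 := E_bound j
    have h2 : 0 ≤ (H (j + 1) + 2) / ((j : ℝ) + 1) := by
      have := H_nonneg (j + 1)
      positivity
    linarith

theorem seq (M : ℕ) (hM : 1 ≤ M) (j : ℕ) : ∃ (ρ : ℝ) (s : Multiset ℝ),
    (opP (j + 1) (X ^ M)).map (algebraMap ℚ ℝ)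
      = C ((-1) ^ (j + 1) * ((j + 1).factorial : ℝ)) * pr (ρ ::ₘ s) ∧
    Multiset.card s + 1 = M ∧ (∀ r ∈ s, 0 ≤ r ∧ r < ρ) ∧ u 1 s ρ ≤ 1 ∧
    ρ ≤ M + H j ∧ M + H j - E j / M ≤ ρ ∧ (M : ℝ) ≤ ρ := by
  have hM0 : (0 : ℝ) < M := by exact_mod_cast hM
  induction j with
  | zero =>
    refine ⟨M, Multiset.replicate (M - 1) 0, ?_, ?_, ?_, ?_, ?_, ?_, le_rfl⟩
    · obtain ⟨m, rfl⟩ := Nat.exists_eq_add_of_le' hM
      rw [opP_succ, opP, LinearMap.id_apply, pr_cons, pr, Multiset.map_replicate,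
        Multiset.prod_replicate]
      simp [Polynomial.map_sub, Polynomial.map_mul, Polynomial.map_pow]
      ring
    · rw [Multiset.card_replicate]; omega
    · intro r hr
      rw [Multiset.eq_of_mem_replicate hr]
      exact ⟨le_rfl, hM0⟩
    · rw [u, Multiset.map_replicate, Multiset.sum_replicate, nsmul_eq_mul, sub_zero, pow_one,
        mul_one_div, div_le_one hM0]
      exact_mod_cast Nat.sub_le M 1
    · simp [H]
    · simp [H, E]
  | succ j ih =>
    obtain ⟨ρ, s, h1, h2, h3, h4, h5, h6, h7⟩ := ih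
    have hcard : (Multiset.card s : ℝ) = M - 1 := by
      rw [← h2]; push_cast; ring
    have hρ : 0 < ρ := hM0.trans_le h7
    have hc : (1 : ℝ) < (j : ℝ) + 2 := by
      have : (0 : ℝ) ≤ j := Nat.cast_nonneg j
      linarith
    obtain ⟨ρ', s', g1, g2, g3, g4, g5, g6, g7⟩ := step ρ s ((j : ℝ) + 2) hc hρ h3 h4
    have e1 : (j : ℝ) + 2 - 1 = (j : ℝ) + 1 := by ring
    rw [e1] at g6
    have hj : (0 : ℝ) < (j : ℝ) + 1 := by positivity
    have hup : ρ' ≤ M + H (j + 1) := by rw [H_succ]; linarith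
    have hρ' : 0 < ρ' := hρ.trans g3
    refine ⟨ρ', s', ?_, by omega, g4, g5, hup, ?_, h7.trans g3.le⟩
    · rw [opP_succ', Polynomial.map_sub, ← derivative_map, Polynomial.map_mul, h1, ← g1,
        Polynomial.map_C, derivative_C_mul, Nat.factorial_succ (j + 1)]
      have e2 : (algebraMap ℚ ℝ) (((j + 1 : ℕ) : ℚ) + 1) = (j : ℝ) + 2 := by
        push_cast
        ring
      rw [e2]
      have e3 : (C (1 / ((j : ℝ) + 2)) : ℝ[X]) * C ((j : ℝ) + 2) = 1 := by
        rw [← C_mul]
        have : 1 / ((j : ℝ) + 2) * ((j : ℝ) + 2) = 1 := by field_simp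
        rw [this, C_1]
      have e4 : (C ((-1) ^ (j + 1 + 1) * (((j + 1 + 1) * (j + 1).factorial : ℕ) : ℝ)) : ℝ[X])
          = - (C ((j : ℝ) + 2) * C ((-1) ^ (j + 1) * ((j + 1).factorial : ℝ))) := by
        rw [← C_mul, ← C_neg]
        congr 1
        push_cast
        ring
      rw [e4]
      linear_combination (- C ((-1) ^ (j + 1) * ((j + 1).factorial : ℝ))
        * derivative (pr (ρ ::ₘ s))) * e3
    · rw [H_succ, E_succ, add_div]
      rw [hcard] at g7
      have hH := H_nonneg (j + 1)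
      have hd : 0 < ρ' - ρ := by linarith
      have k1 : 1 / (ρ' - ρ) ≤ (j : ℝ) + 1 + (1 + H (j + 1)) / M := by
        have k2 : 1 - (1 + H (j + 1)) / M ≤ ((M : ℝ) - 1) * (1 / ρ') := by
          have k3 : 1 / ((M : ℝ) + H (j + 1)) ≤ 1 / ρ' := one_div_le_one_div_of_le hρ' hup
          have k4 : (0 : ℝ) ≤ (M : ℝ) - 1 := by
            have : (1 : ℝ) ≤ M := by exact_mod_cast hM
            linarith
          have k5 := mul_le_mul_of_nonneg_left k3 k4
          have k6 : ((M : ℝ) - 1) * (1 / ((M : ℝ) + H (j + 1))) - (1 - (1 + H (j + 1)) / M)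
              = (1 + H (j + 1)) * H (j + 1) / (M * (M + H (j + 1))) := by
            field_simp
            ring
          have k7 : 0 ≤ (1 + H (j + 1)) * H (j + 1) / (M * (M + H (j + 1))) := by positivity
          linarith
        linarith
      have k8 : 1 / ((j : ℝ) + 1) - (1 + H (j + 1)) / ((j : ℝ) + 1) ^ 2 / M ≤ ρ' - ρ := by
        have hb : 0 ≤ (1 + H (j + 1)) / M := by positivity
        have k9 : 1 / ((j : ℝ) + 1 + (1 + H (j + 1)) / M) ≤ ρ' - ρ := by
          rw [div_le_iff₀ (by positivity)]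
          rw [div_le_iff₀ hd] at k1
          linarith
        have k10 : 1 / ((j : ℝ) + 1) - (1 + H (j + 1)) / ((j : ℝ) + 1) ^ 2 / M
            ≤ 1 / ((j : ℝ) + 1 + (1 + H (j + 1)) / M) := by
          have e5 : (1 + H (j + 1)) / ((j : ℝ) + 1) ^ 2 / M
              = ((1 + H (j + 1)) / M) / ((j : ℝ) + 1) ^ 2 := by ring
          rw [e5]
          generalize (1 + H (j + 1)) / M = b at *
          generalize (j : ℝ) + 1 = a at *
          have e6 : 1 / (a + b) - (1 / a - b / a ^ 2) = b ^ 2 / (a ^ 2 * (a + b)) := by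
            have : a + b ≠ 0 := by positivity
            field_simp
            ring
          have : 0 ≤ b ^ 2 / (a ^ 2 * (a + b)) := by positivity
          linarith
        linarith
      linarith

end X164.LN2
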