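import Pool.Agent.X164.LN2.Bar

open Polynomial

namespace X164.LN2

lemma step (ρ : ℝ) (s : Multiset ℝ) (c : ℝ) (hc : 1 < c) (hρ : 0 < ρ)
    (hs : ∀ r ∈ s, 0 ≤ r ∧ r < ρ) (hS : u 1 s ρ ≤ 1) :
    ∃ (ρ' : ℝ) (s' : Multiset ℝ),
      pr (ρ ::ₘ s) - C (1 / c) * derivative (pr (ρ ::ₘ s)) = pr (ρ' ::ₘ s') ∧
      Multiset.card s' = Multiset.card s ∧ ρ < ρ' ∧ (∀ r ∈ s', 0 ≤ r ∧ r < ρ') ∧ u 1 s' ρ' ≤ 1 ∧
      ρ' - ρ ≤ 1 / (c - 1) ∧ 1 / (ρ' - ρ) ≤ c - (Multiset.card s : ℝ) * (1 / ρ') := by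
  set t := ρ ::ₘ s with ht
  set q := pr t - C (1 / c) * derivative (pr t) with hq
  have hc0 : 0 < c := by linarith
  have hc1 : 0 < c - 1 := by linarith
  have qval : ∀ x, (∀ r ∈ t, x ≠ r) → q.eval x = (pr t).eval x * (1 - u 1 t x / c) := by
    intro x hx
    obtain ⟨h1, -, -⟩ := derivs t x hx
    rw [hq, eval_sub, eval_mul, eval_C, h1]
    field_simp
  have hlt : ∀ x, ρ < x → ∀ r ∈ t, r < x := by
    intro x hx r hr
    rcases Multiset.mem_cons.mp hr with rfl | hr
    · exact hx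
    · exact (hs r hr).2.trans hx
  have qρ : q.eval ρ < 0 := by
    have h1 : (derivative (pr t)).eval ρ = (pr s).eval ρ := by
      rw [ht, pr_cons, derivative_mul]; simp
    have h2 : (pr t).eval ρ = 0 := by rw [ht, pr_cons]; simp
    rw [hq, eval_sub, eval_mul, eval_C, h1, h2]
    have h3 := pr_pos s ρ (fun r hr => (hs r hr).2)
    have : 0 < 1 / c * (pr s).eval ρ := by positivity
    linarith
  have hsm : ∀ x, ρ ≤ x → u 1 s x ≤ 1 := by
    intro x hx
    have h1 := u_anti s ρ x hx (fun r hr => (hs r hr).2)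
    have h2 := u_nonneg 2 s x (fun r hr => (hs r hr).2.trans_le hx)
    have h3 : 0 ≤ (x - ρ) * u 2 s x := mul_nonneg (by linarith) h2
    linarith
  obtain ⟨ρ', hρ1, hρ2, hq0⟩ : ∃ ρ', ρ < ρ' ∧ ρ' - ρ ≤ 1 / (c - 1) ∧ q.eval ρ' = 0 := by
    have hx1 : ρ < ρ + 1 / (c - 1) := by
      have : 0 < 1 / (c - 1) := by positivity
      linarith
    have hq1 : 0 ≤ q.eval (ρ + 1 / (c - 1)) := by
      rw [qval _ (fun r hr => (hlt _ hx1 r hr).ne')]
      apply mul_nonneg (pr_pos t _ (hlt _ hx1)).le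
      have h1 : u 1 t (ρ + 1 / (c - 1)) ≤ c := by
        rw [ht, u_cons]
        have h2 := hsm _ hx1.le
        have h3 : (1 / (ρ + 1 / (c - 1) - ρ)) ^ 1 = c - 1 := by
          rw [add_sub_cancel_left]; simp
        rw [h3]; linarith
      have h2 : u 1 t (ρ + 1 / (c - 1)) / c ≤ 1 := by
        rw [div_le_one hc0]; exact h1
      linarith
    have hcont : ContinuousOn (fun x => q.eval x) (Set.Icc ρ (ρ + 1 / (c - 1))) :=
      q.continuous.continuousOn
    obtain ⟨y, hy, hy0⟩ := intermediate_value_Icc hx1.le hcont ⟨qρ.le, hq1⟩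
    refine ⟨y, lt_of_le_of_ne hy.1 ?_, by linarith [hy.2], hy0⟩
    rintro rfl
    simp only at hy0
    linarith
  have hρ'0 : 0 < ρ' := hρ.trans hρ1
  have hP := pr_pos t ρ' (hlt _ hρ1)
  have hu1 : u 1 t ρ' = c := by
    have h1 := qval ρ' (fun r hr => (hlt _ hρ1 r hr).ne')
    rw [hq0] at h1
    have h2 := (mul_eq_zero.mp h1.symm).resolve_left hP.ne'
    field_simp at h2
    linarith
  have hu2pos : ∀ x, ρ < x → 0 < u 2 t x := by
    intro x hx
    rw [ht, u_cons]
    have h1 := u_nonneg 2 s x (fun r hr => (hs r hr).2.trans hx)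
    have h2 : 0 < x - ρ := by linarith
    have h3 : 0 < (1 / (x - ρ)) ^ 2 := by positivity
    linarith
  have hmax : ∀ x, ρ' < x → 0 < q.eval x := by
    intro x hx
    have hx2 := hρ1.trans hx
    rw [qval x (fun r hr => (hlt _ hx2 r hr).ne')]
    apply mul_pos (pr_pos t x (hlt _ hx2))
    have h1 := u_anti t ρ' x hx.le (hlt _ hρ1)
    have h2 : 0 < (x - ρ') * u 2 t x := mul_pos (by linarith) (hu2pos x hx2)
    have h3 : u 1 t x < c := by linarith
    have h4 : u 1 t x / c < 1 := by rw [div_lt_one hc0]; exact h3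
    linarith
  obtain ⟨d1, d2, d3⟩ := derivs t ρ' (fun r hr => (hlt _ hρ1 r hr).ne')
  rw [hu1] at d1 d2 d3
  have hd1 : (derivative q).eval ρ' = (pr t).eval ρ' * u 2 t ρ' / c := by
    rw [hq, derivative_sub, derivative_C_mul, eval_sub, eval_mul, eval_C, d1, d2]
    field_simp
    ring
  have hd2 : (derivative (derivative q)).eval ρ'
      = (pr t).eval ρ' * (2 * u 2 t ρ' - 2 * u 3 t ρ' / c) := by
    rw [hq, derivative_sub, derivative_C_mul, derivative_sub, derivative_C_mul, eval_sub, eval_mul,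
      eval_C, d2, d3]
    field_simp
    ring
  have hd1pos : 0 < (derivative q).eval ρ' := by
    rw [hd1]
    have := hu2pos ρ' hρ1
    positivity
  -- splitting
  have hNR : NR q := by
    have h1 : NR (pr t) := pr_NR t (fun r hr => by
      rcases Multiset.mem_cons.mp hr with rfl | hr
      · exact hρ.le
      · exact (hs r hr).1)
    obtain ⟨h2, h3⟩ := NR_step _ h1 c hc0
    have h4 : q = C (-1 / c) * (derivative (pr t) - C c * pr t) := by
      rw [hq, mul_sub, ← mul_assoc, ← C_mul]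
      have : -1 / c * c = -1 := by field_simp
      rw [this, neg_div, C_neg, C_neg, C_1]
      ring
    have h5 : (-1 / c) ≠ 0 := div_ne_zero (by norm_num) hc0.ne'
    rw [h4]
    refine ⟨mul_ne_zero (C_ne_zero.mpr h5) h2, fun z hz => ?_⟩
    rw [map_mul, aeval_C] at hz
    rcases mul_eq_zero.mp hz with h | h
    · exact absurd ((map_eq_zero _).mp h) h5
    · exact h3 z h
  have hdeg : (C (1 / c) * derivative (pr t)).degree < (pr t).degree := by
    rw [degree_C_mul (by positivity)]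
    exact degree_derivative_lt (pr_monic t).ne_zero
  have hqm : q.Monic := (pr_monic t).sub_of_left hdeg
  have hqd : q.natDegree = Multiset.card s + 1 := by
    have h1 : q.degree = (pr t).degree := degree_sub_eq_left_of_degree_lt hdeg
    rw [natDegree_eq_of_degree_eq h1, pr_natDegree, ht, Multiset.card_cons]
  obtain ⟨S, hqS, hS0⟩ := NR_split q hqm hNR
  have hroots : q.roots = S := by
    rw [hqS, pr, roots_multiset_prod_X_sub_C]
  have hmem : ρ' ∈ S := by
    rw [← hroots]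
    exact (mem_roots hqm.ne_zero).mpr hq0
  obtain ⟨s', rfl⟩ := Multiset.exists_cons_of_mem hmem
  have hcard : Multiset.card s' = Multiset.card s := by
    have h1 := pr_natDegree (ρ' ::ₘ s')
    rw [← hqS, hqd, Multiset.card_cons] at h1
    omega
  have hs' : ∀ r ∈ s', 0 ≤ r ∧ r < ρ' := by
    intro r hr
    refine ⟨hS0 r (Multiset.mem_cons_of_mem hr), ?_⟩
    have h1 : q.eval r = 0 := by
      have : r ∈ q.roots := by rw [hroots]; exact Multiset.mem_cons_of_mem hr
      exact (mem_roots'.mp this).2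
    have h2 : r ≤ ρ' := by
      by_contra h
      push Not at h
      exact (hmax r h).ne' h1
    refine lt_of_le_of_ne h2 ?_
    rintro rfl
    obtain ⟨s2, rfl⟩ := Multiset.exists_cons_of_mem hr
    have h3 : (derivative q).eval r = 0 := by
      rw [hqS, pr_cons, pr_cons]
      simp [derivative_mul]
    exact hd1pos.ne' h3
  obtain ⟨e1, -, -⟩ := derivs s' ρ' (fun r hr => (hs' r hr).2.ne')
  have f1 : (derivative q).eval ρ' = (pr s').eval ρ' := by
    rw [hqS, pr_cons, derivative_mul]; simp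
  have f2 : (derivative (derivative q)).eval ρ' = 2 * ((pr s').eval ρ' * u 1 s' ρ') := by
    rw [hqS, pr_cons]
    simp only [derivative_mul, derivative_sub, derivative_X, derivative_C, sub_zero, one_mul,
      derivative_add, eval_add, eval_mul, eval_sub, eval_X, eval_C, sub_self, zero_mul, e1]
    ring
  have g0 : ρ' - ρ > 0 := by linarith
  have hu2 : u 2 t ρ' = (1 / (ρ' - ρ)) ^ 2 + u 2 s ρ' := by rw [ht, u_cons]
  have hu3 : u 3 t ρ' = (1 / (ρ' - ρ)) ^ 3 + u 3 s ρ' := by rw [ht, u_cons]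
  have hu1' : 1 / (ρ' - ρ) + u 1 s ρ' = c := by
    rw [← hu1, ht, u_cons, pow_one]
  have hτ2 := u_nonneg 2 s ρ' (fun r hr => (hs r hr).2.trans hρ1)
  have hτ3 := u_nonneg 3 s ρ' (fun r hr => (hs r hr).2.trans hρ1)
  have hanti := u_anti s ρ ρ' hρ1.le (fun r hr => (hs r hr).2)
  have hσ := hsm ρ' hρ1.le
  have ha : 0 < 1 / (ρ' - ρ) := by positivity
  have hτa : u 2 s ρ' ≤ 1 / (ρ' - ρ) * (1 - u 1 s ρ') := by
    have h1 : (ρ' - ρ) * u 2 s ρ' ≤ 1 - u 1 s ρ' := by linarith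
    rw [one_div_mul_eq_div, le_div_iff₀ g0]
    linarith
  have key : (c - 1) * u 2 t ρ' ≤ u 3 t ρ' := by
    rw [hu2, hu3]
    generalize 1 / (ρ' - ρ) = a at *
    have h1 : a - (c - 1) = 1 - u 1 s ρ' := by linarith
    have h2 : 0 ≤ a * (a * (1 - u 1 s ρ') - u 2 s ρ') := mul_nonneg ha.le (by linarith)
    have h3 : 0 ≤ (1 - u 1 s ρ') * u 2 s ρ' := mul_nonneg (by linarith) hτ2
    have h4 : a ^ 3 + u 3 s ρ' - (c - 1) * (a ^ 2 + u 2 s ρ')
        = a * (a * (1 - u 1 s ρ') - u 2 s ρ') + (1 - u 1 s ρ') * u 2 s ρ' + u 3 s ρ' := by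
      have h5 : u 1 s ρ' = c - a := by linarith
      rw [h5]; ring
    linarith
  have hu2t := hu2pos ρ' hρ1
  have hmul : u 1 s' ρ' * u 2 t ρ' = c * u 2 t ρ' - u 3 t ρ' := by
    have h1 : (pr t).eval ρ' * (2 * u 2 t ρ' - 2 * u 3 t ρ' / c)
        = 2 * ((pr t).eval ρ' * u 2 t ρ' / c * u 1 s' ρ') := by
      rw [← hd2, f2, ← f1, hd1]
    have hPne := hP.ne'
    field_simp at h1
    linarith
  refine ⟨ρ', s', hqS, hcard, hρ1, hs', ?_, hρ2, ?_⟩
  · by_contra h
    push Not at h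
    have : u 2 t ρ' < u 1 s' ρ' * u 2 t ρ' := by
      have := mul_lt_mul_of_pos_right h hu2t
      linarith
    linarith
  · have h1 := u_lower s ρ' (fun r hr => ⟨(hs r hr).1, (hs r hr).2.trans hρ1⟩)
    linarith

end X164.LN2
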